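import Pool.Agent.N696.LI.Stm

/-! Project LK (problem MP_e3ee0c_gt).  Definitions and the exact statements of the independent
parts; the proofs are written in the comments.

Part A: rational Reeb vectors are dense, for every prehomogeneous action (`RatDense` for every
`LinGrp`, `LinPoly`).
Part C, D: locally homogeneous contact manifolds `Γ \ G / H`, `H` compact. -/

set_option autoImplicit false

namespace Pool.Agent.Run7.h314.LK

open Topology Filter Pool.Agent.N696.LI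

/-! ### Part A -/

section A

variable {m : ℕ} {F : Type} [NormedAddCommGroup F] [NormedSpace ℝ F]

/-- `u` is a subspace spanned by rational vectors and invariant under the transposes of `D X`. -/
def RatInv (D : F →ₗ[ℝ] Mat m) (u : Submodule ℝ (Fin m → ℝ)) : Prop :=
  (∀ X, ∀ x ∈ u, (D X).transpose.mulVec x ∈ u) ∧
  ∀ x ∈ u, x ∈ Submodule.span ℝ {y | y ∈ u ∧ ∃ z : Fin m → ℚ, y = fun i => (z i : ℝ)}

end A

/-- RED: reduction to a rational invariant subspace.

Proof.  `Λ := {z : Fin m → ℤ | z ∈ u}` is a `ℤ`-submodule of `ℤ^m`, hence has a `ℤ`-basis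
`b 0, ..., b (m' - 1)`; the `b j` are linearly independent over `ℝ` (over `ℤ`, hence over `ℚ`,
hence over `ℝ`: use `S_ker`, or a nonzero minor) and span `u` (`u` is spanned by rational vectors,
hence by integral ones), `m' = dim u`.  `N` := the `m × m'` matrix with the columns `b j`,
`Nᵀ : ℝ^m → ℝ^m'` is onto, let `S` be a right inverse, `Nᵀ S = 1`; the kernel of `Nᵀ` is the
annihilator of `u`, invariant under all `D X` and all `g ∈ G` (the `g` are products of
exponentials of `D X`, `LinGrp.gen`).  Put `D' X = Nᵀ (D X) S`, `π g = Nᵀ g S`; then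
`Nᵀ (D X) = (D' X) Nᵀ`, `Nᵀ g = (π g) Nᵀ`, so `π` is a homomorphism `G → GL(m')`;
`G'` and `Γ'` are the images of `G`, `Γ`, `exp (D' X) = π (exp (D X))`.  `π γ` is integral for
`γ ∈ Γ`, since `γᵀ (b j) ∈ Λ`.  All of `LinGrp D' G' Γ'` follows.

`Q` is invariant under the translations by `ker Nᵀ`: let `η` be in `ker Nᵀ` and `ν` with
`eval ν Q ≠ 0`.  By NOOP (for `D', G', Γ'` and `Nᵀ ν`) and `surj_of_dot` there is `x' ≠ 0` with
`(D' X) (Nᵀ ν) · x' = 0` for all `X`; then `x := N x' ≠ 0` lies in `u` and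
`(D X) ν · x = 0` for all `X`.  Let `y` be the gradient of `Q` at `ν`; also `(D X) ν · y = 0` for all
`X`, by the invariance (derivative of `t ↦ Q (exp (t D X) ν)`).  By `LinPoly.good` every vector is
`(D X) ν + c ν`; so `ν · x ≠ 0`, and `y - (ν · y / ν · x) x` is orthogonal to everything: `y` is
a multiple of `x`, and `y · η = 0` since `x ∈ u`.  So the derivative of `Q` in the direction `η`
vanishes wherever `Q` does not; for the one-variable polynomial `f t = Q (ν + t η)` one gets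
`f * f' = 0` (compare with the end of the proof of `Poly2.claim` in N696/LI/P_POLY2), so `f` is
constant.  Hence `Q ν = Q' (Nᵀ ν)` with `Q' := Q ∘ S` (`MvPolynomial.aeval`), which is
homogeneous of degree `d`.  `LinPoly D' G' d Q'` follows.

`RatDense D' Q' → RatDense D Q`: apply it to `Nᵀ ν`, get `X` and `x'` rational; `x := N x'`;
`Nᵀ exp (D X) = exp (D' X) Nᵀ`. -/
def S_red : Prop := ∀ (m : ℕ) (F : Type) [NormedAddCommGroup F] [NormedSpace ℝ F]
  [FiniteDimensional ℝ F] (D : F →ₗ[ℝ] Mat m) (G Γ : Subgroup (Mat m)ˣ) (d : ℕ)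
  (Q : MvPolynomial (Fin m) ℝ), LinGrp D G Γ → LinPoly D G d Q →
  ∀ u : Submodule ℝ (Fin m → ℝ), RatInv D u → u ≠ ⊥ →
  ∃ (m' : ℕ) (D' : F →ₗ[ℝ] Mat m') (G' Γ' : Subgroup (Mat m')ˣ)
    (Q' : MvPolynomial (Fin m') ℝ), m' = Module.finrank ℝ u ∧ LinGrp D' G' Γ' ∧
    LinPoly D' G' d Q' ∧ (RatDense D' Q' → RatDense D Q)

/-- MINC: the case without proper rational invariant subspaces.  The proof is the second half of
`main_all` in Run7/h314/LJ/Fin.lean, for an abstract `LinGrp` in place of `GG hc hv`. -/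
def S_minc : Prop := ∀ (m : ℕ) (F : Type) [NormedAddCommGroup F] [NormedSpace ℝ F]
  [FiniteDimensional ℝ F] (D : F →ₗ[ℝ] Mat m) (G Γ : Subgroup (Mat m)ˣ) (d : ℕ)
  (Q : MvPolynomial (Fin m) ℝ), LinGrp D G Γ → LinPoly D G d Q → 0 < m →
  (∀ u : Submodule ℝ (Fin m → ℝ), RatInv D u → u = ⊥ ∨ u = ⊤) → RatDense D Q

/-- All of part A. -/
def S_rd : Prop := ∀ (m : ℕ) (F : Type) [NormedAddCommGroup F] [NormedSpace ℝ F]
  [FiniteDimensional ℝ F] (D : F →ₗ[ℝ] Mat m) (G Γ : Subgroup (Mat m)ˣ) (d : ℕ)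
  (Q : MvPolynomial (Fin m) ℝ), LinGrp D G Γ → LinPoly D G d Q → 0 < m → RatDense D Q

theorem rd (h1 : S_red) (h2 : S_minc) : S_rd := by
  intro m
  induction m using Nat.strong_induction_on with
  | _ m ih =>
    intro F _ _ _ D G Γ d Q hL hQ hm
    by_cases h : ∀ u : Submodule ℝ (Fin m → ℝ), RatInv D u → u = ⊥ ∨ u = ⊤
    · exact h2 m F D G Γ d Q hL hQ hm h
    · push Not at h
      obtain ⟨u, hu, hb, ht⟩ := h
      obtain ⟨m', D', G', Γ', Q', hm', hL', hQ', hR⟩ := h1 m F D G Γ d Q hL hQ u hu hb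
      have h3 : m' < m := by
        rw [hm']
        have := Submodule.finrank_lt (s := u) ht
        simpa using this
      have h4 : 0 < m' := by
        rw [hm']
        exact Nat.pos_of_ne_zero fun h0 => hb (Submodule.finrank_eq_zero.1 h0)
      exact hR (ih m' h3 F D' G' Γ' d Q' hL' hQ' h4)

/-! ### Part C: the polynomial for homogeneous contact forms -/

open Polynomial in
/-- BORD: the derivative of the leading coefficient of `det (M₀ + s B)` in the directions
`B A + N`.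

Proof.  Write `M s = M₀ + s B`.  For all `s` with `s ≠ 0`, `det (M s) ≠ 0` (all but finitely many
`s`): `tr (adj (M s) N) = det (M s) tr ((M s)⁻¹ N)`, and `s (M s)⁻¹ N = E₁ + (M s)⁻¹ E₂ (M s)` has
trace `tr E₁ + tr E₂ = 0`.  So `tr (adj (M s) N) = 0`, as polynomials in `s`.
Let `det (M s₀) ≠ 0`, `R = (M s₀)⁻¹ B`; `R A = A R`, since `B A = - Aᵀ B` and
`(M s₀)⁻¹ Aᵀ = - A (M s₀)⁻¹`.  With `t = s - s₀`: `M s = M s₀ (1 + t R)`,
`tr (adj (M s) B A) = det (M s₀) tr (adj (1 + t R) R A)`.  Let `det (1 + t R) = ∑ e_j t^j`,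
`e_j = 0` for `j > K`.  Put `C_k = R ∑_{j ≤ k} e_j (-R)^(k-j)`; it commutes with `A`,
`C_k + R C_(k-1) = e_k R`, and `C_k = 0` for `k ≥ N := card ι` (Cayley-Hamilton for `-R`:
`Matrix.charpolyRev`).  So `(1 + t R) ∑_{k < N} C_k t^k = det (1 + t R) R`, and
`adj (1 + t R) R = ∑_{k<N} C_k t^k`.  For `k ≥ K`: `C_(k+1) = - R C_k`, so `R^N C_k = 0`, and
`C_k` is `R` times a polynomial in `R`, so `C_k` is nilpotent; `C_k A` is nilpotent, has trace zero.
So the polynomial `tr (adj (M s) B A)` has degree less than `K` in `t`, hence also in `s`. -/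
def S_bord : Prop := ∀ (ι : Type) [Fintype ι] [DecidableEq ι] (M₀ B A N E₁ E₂ : Matrix ι ι ℝ)
  (K : ℕ), A.transpose * M₀ + M₀ * A = 0 → A.transpose * B + B * A = 0 →
  (∀ s : ℝ, s • N = (M₀ + s • B) * E₁ + E₂ * (M₀ + s • B)) → E₁.trace + E₂.trace = 0 →
  (∃ s : ℝ, (M₀ + s • B).det ≠ 0) →
  (∀ k, K < k → ((M₀.map C + (X : ℝ[X]) • B.map C).det).coeff k = 0) →
  (((M₀.map C + (X : ℝ[X]) • B.map C).adjugate * (B * A + N).map C).trace).coeff K = 0

open Polynomial in
/-- PK: the coefficients of `det (M β + s B)` as homogeneous polynomials in `β`, and their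
derivatives.

Proof.  Entries `∑ k, (M e_k) i j X_(k+1) + B i j X_0` in `MvPolynomial (Fin (n+1)) ℝ`, homogeneous of
degree 1; the determinant is homogeneous of degree `card ι`; take the coefficients of
`MvPolynomial.finSuccEquiv`
(`MvPolynomial.IsHomogeneous.finSuccEquiv_coeff_isHomogeneous`).  The derivative: for every `s`,
`ε ↦ det (M (β + ε δ) + s B)` has the derivative `tr (adj (M β + s B) (M δ))` at `0`, and equals
`∑ k, eval (β + ε δ) (P k) s^k`; compare the coefficients of the polynomials in `s`. -/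
def S_pk : Prop := ∀ (ι : Type) [Fintype ι] [DecidableEq ι] (n : ℕ)
  (M : (Fin n → ℝ) →ₗ[ℝ] Matrix ι ι ℝ) (B : Matrix ι ι ℝ),
  ∃ P : ℕ → MvPolynomial (Fin n) ℝ,
    (∀ k, k ≤ Fintype.card ι → (P k).IsHomogeneous (Fintype.card ι - k)) ∧
    (∀ k, Fintype.card ι < k → P k = 0) ∧
    (∀ k β, MvPolynomial.eval β (P k) =
      (((M β).map C + (X : ℝ[X]) • B.map C).det).coeff k) ∧
    ∀ k β δ, HasDerivAt (fun ε : ℝ => MvPolynomial.eval (β + ε • δ) (P k))
      (((((M β).map C + (X : ℝ[X]) • B.map C).adjugate * ((M δ).map C)).trace).coeff k) 0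

/-- NEG: if the form `B` is negative on the kernel for `α`, then so it is for all `β` near `α`.

Proof.  The set of the `(β, X)`, `‖X‖ = 1`, with `β (b X Y) = 0` for all `Y` (in a basis),
`β X = 0`, `0 ≤ B X X` is closed in `(Fin n → ℝ) × sphere`, the sphere is compact, so its
projection to `Fin n → ℝ` is closed; `α` is not in it.  Here `β : Fin n → ℝ` is the linear form
`Y ↦ ∑ i, β i * Y i` on `Fin n → ℝ`, and `b` is a bilinear map. -/
def S_neg : Prop := ∀ (n : ℕ) (b : (Fin n → ℝ) →ₗ[ℝ] (Fin n → ℝ) →ₗ[ℝ] (Fin n → ℝ))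
  (B : (Fin n → ℝ) →ₗ[ℝ] (Fin n → ℝ) →ₗ[ℝ] ℝ) (α : Fin n → ℝ),
  (∀ X, (∀ Y, dotProduct α (b X Y) = 0) → dotProduct α X = 0 → X ≠ 0 → B X X < 0) →
  ∃ U ∈ 𝓝 α, ∀ β ∈ U,
    ∀ X, (∀ Y, dotProduct β (b X Y) = 0) → dotProduct β X = 0 → X ≠ 0 → B X X < 0

/-- NDEG: for some small `s` the bordered form is nondegenerate.

Proof.  Otherwise, for `s = 1 / (k + 1)` there is `(X, a)` of norm one in the kernel; for a
subsequence `(X, a)` converges to `(X', a')` of norm one in the kernel for `s = 0`: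
`α X' = 0`, `α (b X' Z) = a' α Z` for all `Z`.  For `Z = ξ`: `a' = - α (b ξ X') = 0`.  So
`X' ≠ 0` is in the kernel of the hypothesis, `B X' X' < 0`.  But for the members of the sequence,
with `Z = X'`: `α (b X X') = - α (b X' X) = 0`, `α X' = 0`, so `s B X X' = 0`, `B X X' = 0` and in the
limit `B X' X' = 0`. -/
def S_ndeg : Prop := ∀ (n : ℕ) (b : (Fin n → ℝ) →ₗ[ℝ] (Fin n → ℝ) →ₗ[ℝ] (Fin n → ℝ))
  (B : (Fin n → ℝ) →ₗ[ℝ] (Fin n → ℝ) →ₗ[ℝ] ℝ) (α ξ : Fin n → ℝ), (∀ X Y, b X Y = - b Y X) →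
  (∀ X, (∀ Y, dotProduct α (b X Y) = 0) → dotProduct α X = 0 → X ≠ 0 → B X X < 0) →
  dotProduct α ξ = 1 → (∀ Y, dotProduct α (b ξ Y) = 0) →
  ∃ s : ℝ, ∀ X : Fin n → ℝ, ∀ a : ℝ, dotProduct α X = 0 →
    (∀ Z, dotProduct α (b X Z) + s * B X Z = a * dotProduct α Z) → X = 0 ∧ a = 0

/-! ### Part D: compact isotropy -/

/-- COMP: a one-parameter group with relatively compact image in a compact group acts with
negative semidefinite trace form.

Proof.  Average the standard inner product of (coordinates of) `𝔤` over the compact group `H` with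
the Haar measure, or over the one-parameter group: one gets an inner product on `𝔤` with
`⟨cj h Y, cj h Z⟩ = ⟨Y, Z⟩`, `h ∈ H`; differentiating at `t = 0` along `h = exp (t X)`,
`T` is skew; so `tr (T T) = - tr (T Tᵀ) < 0` unless `T = 0` (in an orthonormal basis). -/
def S_comp : Prop := ∀ (A : Type) [NormedRing A] [NormedAlgebra ℝ A] [FiniteDimensional ℝ A]
  (𝔤 : Submodule ℝ A) (H : Subgroup Aˣ), IsCompact (H : Set Aˣ) →
  (∀ h ∈ H, ∀ Y ∈ 𝔤, cj h Y ∈ 𝔤) →
  ∀ X : A, (∀ t : ℝ, ∃ h ∈ H, (h : A) = NormedSpace.exp (t • X)) →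
  ∀ T : 𝔤 →ₗ[ℝ] 𝔤, (∀ Y, (T Y : A) = br X Y) →
    T = 0 ∨ LinearMap.trace ℝ 𝔤 (T ∘ₗ T) < 0

end Pool.Agent.Run7.h314.LK
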