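import Pool.Agent.Y520.Euler
import Pool.Agent.H826R2.Wein.SymAlg
import Pool.Agent.H826R2.Wein.Main4
import Pool.Agent.Run7.h314.LK.Iface
import Pool.Agent.N696.LI.P_HESS
import Pool.Agent.N696.LI.Red

/-! Project LK, geometry: closed Reeb orbits from rational Reeb covectors. -/

open scoped Topology ContDiff Manifold
open Set Metric Bundle Filter Matrix Pool.Agent.Helper186

set_option autoImplicit false
set_option linter.unusedSectionVars false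

noncomputable section

namespace Pool.Agent.Run7.h314.LK

open Pool.Agent.H826R2.Wein Pool.Agent.Y520 Pool.Agent.N696.LI

universe u

variable {E : Type u} [NormedAddCommGroup E] [NormedSpace ℝ E] [FiniteDimensional ℝ E]
  {P : Type*} [TopologicalSpace P] [ChartedSpace E P] [IsManifold 𝓘(ℝ, E) ∞ P]
  {M : Type*} [TopologicalSpace M] [ChartedSpace E M] [IsManifold 𝓘(ℝ, E) ∞ M] {m : ℕ}
  {β : (x : P) → TangentSpace 𝓘(ℝ, E) x →L[ℝ] ℝ}

/-- The momentum and a map which normalises the torus action. -/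
lemma mom_push (A : TAct β m) {φ : P → P} (hφ : ContMDiff 𝓘(ℝ, E) 𝓘(ℝ, E) ∞ φ)
    (hs : ∀ (x : P) (u : TangentSpace 𝓘(ℝ, E) x),
      β (φ x) (mfderiv 𝓘(ℝ, E) 𝓘(ℝ, E) φ x u) = β x u)
    (g : (Mat m)ˣ)
    (hg : ∀ (θ : Fin m → ℝ) (x : P),
      φ (A.act θ x) = A.act ((((g⁻¹ : (Mat m)ˣ) : Mat m)ᵀ).mulVec θ) (φ x)) (x : P) :
    mom A (φ x) = (g : Mat m).mulVec (mom A x) := by
  have h1 : ∀ κ : Fin m → ℝ,
      A.H ((((g⁻¹ : (Mat m)ˣ) : Mat m)ᵀ).mulVec κ) (φ x) = A.H κ x := by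
    intro κ
    refine A.H_push hφ ?_ hs x
    intro t y
    unfold TAct.fam
    rw [hg, mulVec_smul]
  have h2 : ∀ κ : Fin m → ℝ, ((g⁻¹ : (Mat m)ˣ) : Mat m).mulVec (mom A (φ x)) ⬝ᵥ κ =
      mom A x ⬝ᵥ κ := by
    intro κ
    have := h1 κ
    rw [H_eq_mom, H_eq_mom] at this
    rw [← this, mulVec_transpose, dotProduct_comm, dotProduct_comm _ (κ ᵥ* _),
      ← dotProduct_mulVec]
  have h3 : ((g⁻¹ : (Mat m)ˣ) : Mat m).mulVec (mom A (φ x)) = mom A x := by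
    funext i
    have := h2 (Pi.single i 1)
    simpa using this
  rw [← h3, mulVec_mulVec, Units.mul_inv, one_mulVec]

/-- A critical point of `Q ∘ mom`. -/
lemma crit_of_max (A : TAct β m) [T2Space P] (hβ : SmoothForm β) (Q : MvPolynomial (Fin m) ℝ)
    {x : P} (hx : (∀ y, pf A Q y ≤ pf A Q x) ∨ ∀ y, pf A Q x ≤ pf A Q y) :
    dForm 𝓘(ℝ, E) (A.H (Hess.gr Q (mom A x))) x = 0 := by
  obtain ⟨-, hd⟩ := pf_deriv A hβ Q
  have h0 : ∀ u, dForm 𝓘(ℝ, E) (pf A Q) x u = 0 := by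
    intro u
    rcases hx with hx | hx
    · have h1 : dForm 𝓘(ℝ, E) (pf A Q) x = 0 := dForm_eq_zero_of_isMax hx
      rw [h1]; rfl
    · obtain ⟨-, hd'⟩ := pf_deriv A hβ (-Q)
      have h1 : ∀ y, pf A (-Q) y ≤ pf A (-Q) x := by
        intro y
        simp only [pf, map_neg]
        have := hx y
        simp only [pf] at this
        linarith
      have h2 : dForm 𝓘(ℝ, E) (pf A (-Q)) x = 0 := dForm_eq_zero_of_isMax h1
      have h3 := hd' x u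
      rw [h2] at h3
      have h4 : ∀ i, pf A (MvPolynomial.pderiv i (-Q)) x = - pf A (MvPolynomial.pderiv i Q) x := by
        intro i
        simp [pf]
      simp only [h4, neg_mul, Finset.sum_neg_distrib] at h3
      rw [hd x u]
      have h5 : (0 : TangentSpace 𝓘(ℝ, E) x →L[ℝ] ℝ) u = 0 := rfl
      rw [h5] at h3
      linarith
  refine ContinuousLinearMap.ext fun u => ?_
  rw [dH_expand A hβ]
  have h1 := h0 u
  rw [hd x u] at h1
  exact h1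

/-- The Reeb vectors of a covector with `Q ≠ 0` are the multiples of the gradient. -/
lemma reeb_unique {F : Type} [NormedAddCommGroup F] [NormedSpace ℝ F] {D : F →ₗ[ℝ] Mat m}
    {G : Subgroup (Mat m)ˣ} {d : ℕ} {Q : MvPolynomial (Fin m) ℝ} (hQ : LinPoly D G d Q)
    (hex : ∀ X, ∃ g ∈ G, (g : Mat m) = NormedSpace.exp (D X)) (ν : Fin m → ℝ)
    (hν : MvPolynomial.eval ν Q ≠ 0) (x : Fin m → ℝ) (hx : Reeb D ν x) :
    ∃ c : ℝ, x = c • Hess.gr Q ν := by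
  have h1 : Reeb D ν (Hess.gr Q ν) := by
    intro X
    have h2 := Hess.inf_inv Q (D X) (by
      intro t η
      obtain ⟨g, hg, he⟩ := hex (t • X)
      rw [map_smul] at he
      rw [← he]
      exact hQ.inv g hg η) ν
    exact h2
  have h2 : dotProduct ν (Hess.gr Q ν) ≠ 0 := by
    rw [Hess.euler1 hQ.hom ν]
    have := hQ.hd
    exact mul_ne_zero (by positivity) hν
  refine ⟨dotProduct ν x / dotProduct ν (Hess.gr Q ν), ?_⟩
  have h3 : ∀ y, dotProduct y (x - (dotProduct ν x / dotProduct ν (Hess.gr Q ν)) •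
      Hess.gr Q ν) = 0 := by
    intro y
    obtain ⟨X, c, rfl⟩ := hQ.good ν hν y
    rw [add_dotProduct, smul_dotProduct, dotProduct_sub, dotProduct_sub, dotProduct_smul,
      dotProduct_smul, hx X, h1 X]
    simp only [smul_eq_mul, mul_zero, sub_zero, zero_add]
    field_simp
    ring
  have h4 := h3 (x - (dotProduct ν x / dotProduct ν (Hess.gr Q ν)) • Hess.gr Q ν)
  rw [dotProduct_self_eq_zero] at h4
  exact sub_eq_zero.1 h4

/-- **Closed orbits from prehomogeneous symmetry.** -/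
theorem exists_closed_prehom [T2Space M] [CompactSpace M]
    {α : (x : M) → TangentSpace 𝓘(ℝ, E) x →L[ℝ] ℝ} (hα : IsContact α)
    {R : (x : M) → TangentSpace 𝓘(ℝ, E) x} (hR : IsReeb α R)
    [T2Space P] [SigmaCompactSpace P] [Nonempty P]
    {Γ : Type*} [Group Γ] [MulAction Γ P] {q : P → M} (hq : RegCover (E := E) q Γ)
    (A : TAct (pullForm 𝓘(ℝ, E) 𝓘(ℝ, E) q α) m)
    {F : Type} [NormedAddCommGroup F] [NormedSpace ℝ F] (D : F →ₗ[ℝ] Mat m)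
    (G : Subgroup (Mat m)ˣ) (d : ℕ) (Q : MvPolynomial (Fin m) ℝ) (hQ : LinPoly D G d Q)
    (hex : ∀ X, ∃ g ∈ G, (g : Mat m) = NormedSpace.exp (D X)) (hrd : RatDense D Q)
    (hreal : ∀ g ∈ G, ∃ φ : P → P, ContMDiff 𝓘(ℝ, E) 𝓘(ℝ, E) ∞ φ ∧
      (∀ (x : P) (u : TangentSpace 𝓘(ℝ, E) x),
        pullForm 𝓘(ℝ, E) 𝓘(ℝ, E) q α (φ x) (mfderiv 𝓘(ℝ, E) 𝓘(ℝ, E) φ x u) =
          pullForm 𝓘(ℝ, E) 𝓘(ℝ, E) q α x u) ∧
      ∀ (θ : Fin m → ℝ) (x : P),
        φ (A.act θ x) = A.act ((((g⁻¹ : (Mat m)ˣ) : Mat m)ᵀ).mulVec θ) (φ x))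
    (hΓ : ∀ γ : Γ, ∃ g ∈ G, ∀ (θ : Fin m → ℝ) (x : P),
        γ • A.act θ x = A.act ((((g⁻¹ : (Mat m)ˣ) : Mat m)ᵀ).mulVec θ) (γ • x)) :
    ∃ (c : ℝ → M) (T : ℝ), 0 < T ∧ IsMIntegralCurve (I := 𝓘(ℝ, E)) c R ∧
      ∀ t, c (t + T) = c t := by
  obtain ⟨D₀, hD₀, hcov⟩ := hq.exists_domain
  have hcP := hq.isContact_pull hα
  have hRP := hq.isReeb_lift hα hR
  apply hq.closed_proj
  -- the function
  have hsm := (pf_deriv A hcP.smooth Q).1
  have hpf : ∀ (φ : P → P) (g : (Mat m)ˣ), g ∈ G → ContMDiff 𝓘(ℝ, E) 𝓘(ℝ, E) ∞ φ →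
      (∀ (x : P) (u : TangentSpace 𝓘(ℝ, E) x),
        pullForm 𝓘(ℝ, E) 𝓘(ℝ, E) q α (φ x) (mfderiv 𝓘(ℝ, E) 𝓘(ℝ, E) φ x u) =
          pullForm 𝓘(ℝ, E) 𝓘(ℝ, E) q α x u) →
      (∀ (θ : Fin m → ℝ) (x : P),
        φ (A.act θ x) = A.act ((((g⁻¹ : (Mat m)ˣ) : Mat m)ᵀ).mulVec θ) (φ x)) →
      ∀ x, pf A Q (φ x) = pf A Q x := by
    intro φ g hg h1 h2 h3 x
    unfold pf
    rw [mom_push A h1 h2 g h3, hQ.inv g hg]
  have hinvΓ : ∀ (γ : Γ) (x : P), pf A Q (γ • x) = pf A Q x := by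
    intro γ x
    obtain ⟨g, hg, h3⟩ := hΓ γ
    exact hpf (fun x => γ • x) g hg (hq.smooth γ) (hq.strict α γ) h3 x
  -- a point where it is extremal and does not vanish
  obtain ⟨x₁, hx₁⟩ := exists_pf_ne_zero A hcP hRP d Q hQ.hom hQ.ne
  obtain ⟨p₀, hne, hext⟩ : ∃ p₀, pf A Q p₀ ≠ 0 ∧
      ((∀ y, pf A Q y ≤ pf A Q p₀) ∨ ∀ y, pf A Q p₀ ≤ pf A Q y) := by
    obtain ⟨γ₁, hγ₁⟩ := hcov x₁
    rcases lt_or_gt_of_ne hx₁ with h0 | h0
    · obtain ⟨p, hp, hmin⟩ := hD₀.exists_isMinOn ⟨_, hγ₁⟩ hsm.continuous.continuousOn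
      have h1 : ∀ y, pf A Q p ≤ pf A Q y := by
        intro y
        obtain ⟨γ, hγ⟩ := hcov y
        rw [← hinvΓ γ y]
        exact hmin hγ
      exact ⟨p, (lt_of_le_of_lt (h1 x₁) h0).ne, Or.inr h1⟩
    · obtain ⟨p, hp, hmax⟩ := hD₀.exists_isMaxOn ⟨_, hγ₁⟩ hsm.continuous.continuousOn
      have h1 : ∀ y, pf A Q y ≤ pf A Q p := by
        intro y
        obtain ⟨γ, hγ⟩ := hcov y
        rw [← hinvΓ γ y]
        exact hmax hγ
      exact ⟨p, (lt_of_lt_of_le h0 (h1 x₁)).ne', Or.inl h1⟩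
  -- a rational Reeb vector in the orbit
  obtain ⟨X, -, x, hx1, hx2⟩ := hrd (mom A p₀) hne univ univ_mem
  obtain ⟨g, hg, hge⟩ := hex X
  obtain ⟨φ, hφ1, hφ2, hφ3⟩ := hreal g hg
  have hmom : mom A (φ p₀) = (NormedSpace.exp (D X)).mulVec (mom A p₀) := by
    rw [mom_push A hφ1 hφ2 g hφ3, hge]
  have hext' : (∀ y, pf A Q y ≤ pf A Q (φ p₀)) ∨ ∀ y, pf A Q (φ p₀) ≤ pf A Q y := by
    rw [hpf φ g hg hφ1 hφ2 hφ3]
    exact hext
  have hne' : MvPolynomial.eval (mom A (φ p₀)) Q ≠ 0 := by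
    have := hpf φ g hg hφ1 hφ2 hφ3 p₀
    unfold pf at this hne
    rw [this]
    exact hne
  have hcrit := crit_of_max A hcP.smooth Q hext'
  rw [← hmom] at hx1 hx2
  obtain ⟨c, hc⟩ := reeb_unique hQ hex _ hne' _ hx2
  obtain ⟨N, z, hN, hz⟩ := exists_int_mul x
  have hz' : (fun i => ((z i : ℤ) : ℝ)) = ((N : ℝ) * c) • Hess.gr Q (mom A (φ p₀)) := by
    rw [mul_smul, ← hc]
    funext i
    rw [← hz i]
    rfl
  have hk : z ≠ 0 := by
    rintro rfl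
    have h1 : ∀ i, (x i : ℝ) = 0 := by
      intro i
      have h2 := hz i
      have h3 : (N : ℝ) ≠ 0 := by exact_mod_cast hN.ne'
      simpa [h3] using h2
    simp only [h1] at hx1
    simp [dotProduct] at hx1
  refine A.closed_of_crit hcP hRP hk (x := φ p₀) ?_
  rw [hz', A.dH_smul hcP.smooth, hcrit, smul_zero]

end Pool.Agent.Run7.h314.LK
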