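import Pool.Agent.N424.LI.Expm
import Pool.Agent.N696.LI.Base
import Pool.Agent.Run7.h314.LK.Iface

/-! Project LK: from a group with a monodromy representation to `LinGrp` and `LinPoly`. -/

open Matrix Pool.Agent.N696.LI

set_option autoImplicit false
set_option linter.unusedSectionVars false

noncomputable section

namespace Pool.Agent.Run7.h314.LK

variable {m : ℕ} {𝒢 : Type*} [Group 𝒢]

/-- The representation `ρ` of the group `𝒢` with values in the matrices: the image of `𝒢` is the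
group generated by the exponentials of the elements of the Lie algebra `L`, the elements of `Γ`
act by integral matrices, and the image of `𝒢` is the product of that of `Γ` and of a compact
subset. -/
structure Monodromy (L : Submodule ℝ (Matrix (Fin m) (Fin m) ℝ))
    (ρ : 𝒢 →* (Matrix (Fin m) (Fin m) ℝ)ˣ) (Γ : Subgroup 𝒢) : Prop where
  lie : ∀ X ∈ L, ∀ Y ∈ L, X * Y - Y * X ∈ L
  range : ρ.range = Subgroup.closure
    {g : (Matrix (Fin m) (Fin m) ℝ)ˣ | ∃ X ∈ L,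
      (g : Matrix (Fin m) (Fin m) ℝ) = NormedSpace.exp X}
  integral : ∀ γ ∈ Γ, ∀ i j, ∃ z : ℤ, (ρ γ : Matrix (Fin m) (Fin m) ℝ) i j = z
  cocompact : ∃ K : Set (Matrix (Fin m) (Fin m) ℝ)ˣ, IsCompact K ∧ K ⊆ ρ.range ∧
    ∀ g : 𝒢, ∃ γ ∈ Γ, ρ (γ⁻¹ * g) ∈ K

/-- The homogeneous polynomial `Q` on the space of the covectors `a` is not zero, invariant under
`𝒢`, and at every covector where it does not vanish the tangent space of the orbit of `𝒢` and the
covector span the whole space. -/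
structure Prehomogeneous (L : Submodule ℝ (Matrix (Fin m) (Fin m) ℝ))
    (ρ : 𝒢 →* (Matrix (Fin m) (Fin m) ℝ)ˣ) (d : ℕ) (Q : MvPolynomial (Fin m) ℝ) : Prop where
  hom : Q.IsHomogeneous d
  ne : Q ≠ 0
  inv : ∀ (g : 𝒢) (a : Fin m → ℝ),
    MvPolynomial.eval ((ρ g : Matrix (Fin m) (Fin m) ℝ)ᵀ.mulVec a) Q = MvPolynomial.eval a Q
  good : ∀ a, MvPolynomial.eval a Q ≠ 0 → ∀ y, ∃ X ∈ L, ∃ c : ℝ, y = Xᵀ.mulVec a + c • a

/-- The contragredient. -/
def tau : (Mat m)ˣ →* (Mat m)ˣ := MonoidHom.toHomUnits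
  { toFun := fun g => ((g⁻¹ : (Mat m)ˣ) : Mat m)ᵀ
    map_one' := by simp
    map_mul' := fun g h => by rw [_root_.mul_inv_rev, Units.val_mul, transpose_mul] }

@[simp] lemma tau_val (g : (Mat m)ˣ) : ((tau g : (Mat m)ˣ) : Mat m) = ((g⁻¹ : (Mat m)ˣ) : Mat m)ᵀ :=
  rfl

lemma tau_inv_val (g : (Mat m)ˣ) : ((((tau g)⁻¹ : (Mat m)ˣ) : Mat m))ᵀ = (g : Mat m) := by
  rw [← map_inv, tau_val, inv_inv, transpose_transpose]

lemma continuous_tau : Continuous (tau : (Mat m)ˣ → (Mat m)ˣ) := by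
  rw [Units.continuous_iff]
  constructor
  · exact (Units.continuous_val.comp continuous_inv).matrix_transpose
  · have : (fun g : (Mat m)ˣ => (((tau g)⁻¹ : (Mat m)ˣ) : Mat m)) = fun g : (Mat m)ˣ => (g : Mat m)ᵀ := by
      funext g
      rw [← map_inv, tau_val, inv_inv]
    exact this ▸ Units.continuous_val.matrix_transpose

section

attribute [local instance] Matrix.linftyOpNormedRing Matrix.linftyOpNormedAlgebra

lemma conj_mem (L : Submodule ℝ (Mat m)) (hL : ∀ X ∈ L, ∀ Y ∈ L, X * Y - Y * X ∈ L)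
    (g : (Mat m)ˣ)
    (hg : g ∈ Subgroup.closure {g : (Mat m)ˣ | ∃ X ∈ L, (g : Mat m) = NormedSpace.exp X}) :
    ∀ Y ∈ L, (g : Mat m) * Y * ((g⁻¹ : (Mat m)ˣ) : Mat m) ∈ L :=
  cj_mem (A := Mat m) Pool.Agent.N424.LI.expm L L hL g hg

end

variable (L : Submodule ℝ (Matrix (Fin m) (Fin m) ℝ))

/-- the Lie algebra on the covectors -/
def DL : (Fin (Module.finrank ℝ L) → ℝ) →ₗ[ℝ] Mat m where
  toFun x := -(((∑ i, x i • Module.finBasis ℝ L i : L) : Mat m))ᵀ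
  map_add' x y := by
    rw [show ∑ i, (x + y) i • Module.finBasis ℝ L i = ∑ i, x i • Module.finBasis ℝ L i +
      ∑ i, y i • Module.finBasis ℝ L i by
        rw [← Finset.sum_add_distrib]; exact Finset.sum_congr rfl fun i _ => add_smul _ _ _]
    rw [Submodule.coe_add, transpose_add, neg_add]
  map_smul' c x := by
    rw [show ∑ i, (c • x) i • Module.finBasis ℝ L i = c • ∑ i, x i • Module.finBasis ℝ L i by
        rw [Finset.smul_sum]; exact Finset.sum_congr rfl fun i _ => by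
          rw [Pi.smul_apply, smul_eq_mul, mul_smul]]
    rw [Submodule.coe_smul, transpose_smul, RingHom.id_apply, smul_neg]

lemma DL_mem (x : Fin (Module.finrank ℝ L) → ℝ) : ∃ X ∈ L, DL L x = -Xᵀ :=
  ⟨_, (∑ i, x i • Module.finBasis ℝ L i : L).2, rfl⟩

lemma exists_DL (X : Mat m) (hX : X ∈ L) : ∃ x, DL L x = -Xᵀ := by
  refine ⟨fun i => (Module.finBasis ℝ L).repr ⟨X, hX⟩ i, ?_⟩
  show -(((∑ i, (Module.finBasis ℝ L).repr ⟨X, hX⟩ i • Module.finBasis ℝ L i : L) : Mat m))ᵀ = _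
  rw [(Module.finBasis ℝ L).sum_repr]

lemma exp_neg_transpose (X : Mat m) (g : (Mat m)ˣ) (hg : (g : Mat m) = NormedSpace.exp X) :
    ((tau g : (Mat m)ˣ) : Mat m) = NormedSpace.exp (-Xᵀ) := by
  have h1 : ((g⁻¹ : (Mat m)ˣ) : Mat m) = NormedSpace.exp (-X) := by
    rw [Matrix.exp_neg, ← hg, Matrix.coe_units_inv]
  rw [tau_val, h1, ← Matrix.exp_transpose, transpose_neg]

theorem linGrp_of {ρ : 𝒢 →* (Matrix (Fin m) (Fin m) ℝ)ˣ} {Γ : Subgroup 𝒢}
    (h : Monodromy L ρ Γ) :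
    LinGrp (DL L) (ρ.range.map tau) ((Γ.map ρ).map tau) where
  lie := by
    intro x y
    obtain ⟨X, hX, hx⟩ := DL_mem L x
    obtain ⟨Y, hY, hy⟩ := DL_mem L y
    obtain ⟨z, hz⟩ := exists_DL L _ (h.lie X hX Y hY)
    refine ⟨z, ?_⟩
    rw [hz, hx, hy, transpose_sub, transpose_mul, transpose_mul]
    noncomm_ring
  exp_mem := by
    intro x
    obtain ⟨X, hX, hx⟩ := DL_mem L x
    have hu : IsUnit (NormedSpace.exp X : Mat m) := Matrix.isUnit_exp X
    obtain ⟨g, hg⟩ := hu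
    have hgr : g ∈ ρ.range := by
      rw [h.range]
      exact Subgroup.subset_closure ⟨X, hX, hg⟩
    exact ⟨tau g, Subgroup.mem_map.2 ⟨g, hgr, rfl⟩, by rw [exp_neg_transpose X g hg, hx]⟩
  gen := by
    rw [h.range, MonoidHom.map_closure]
    apply Subgroup.closure_mono
    rintro _ ⟨g, ⟨X, hX, hg⟩, rfl⟩
    obtain ⟨x, hx⟩ := exists_DL L X hX
    exact ⟨x, by rw [exp_neg_transpose X g hg, hx]⟩
  conj := by
    rintro _ ⟨g, hg, rfl⟩ x
    obtain ⟨X, hX, hx⟩ := DL_mem L x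
    have hg' : g ∈ Subgroup.closure {g : (Mat m)ˣ | ∃ X ∈ L, (g : Mat m) = NormedSpace.exp X} := by
      rw [← h.range]; exact hg
    obtain ⟨y, hy⟩ := exists_DL L _ (conj_mem L h.lie g hg' X hX)
    refine ⟨y, ?_⟩
    rw [hy, hx, ← map_inv, tau_val, tau_val, inv_inv, transpose_mul, transpose_mul]
    noncomm_ring
  le := by
    apply Subgroup.map_mono
    rintro _ ⟨g, -, rfl⟩
    exact ⟨g, rfl⟩
  int := by
    rintro _ ⟨_, ⟨γ, hγ, rfl⟩, rfl⟩ i j
    have h1 := h.integral γ⁻¹ (Γ.inv_mem hγ) j i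
    rw [map_inv] at h1
    exact h1
  cocompact := by
    obtain ⟨K, hK, hK2, hK3⟩ := h.cocompact
    refine ⟨tau '' K, hK.image continuous_tau, ?_, ?_⟩
    · rintro _ ⟨k, hk, rfl⟩
      exact ⟨k, hK2 hk, rfl⟩
    · rintro _ ⟨_, ⟨g, rfl⟩, rfl⟩
      obtain ⟨γ, hγ, hk⟩ := hK3 g
      refine ⟨tau (ρ γ), ⟨ρ γ, ⟨γ, hγ, rfl⟩, rfl⟩, ρ (γ⁻¹ * g), hk, ?_⟩
      rw [map_mul, map_inv, map_mul, map_inv]

theorem linPoly_of {ρ : 𝒢 →* (Matrix (Fin m) (Fin m) ℝ)ˣ} {d : ℕ}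
    {Q : MvPolynomial (Fin m) ℝ} (hm : 0 < m) (h : Prehomogeneous L ρ d Q) :
    LinPoly (DL L) (ρ.range.map tau) (2 * d) (Q ^ 2) := by
  have hd : d ≠ 0 := by
    rintro rfl
    have h0 : MvPolynomial.eval (0 : Fin m → ℝ) Q ≠ 0 := by
      intro h1
      apply h.ne
      have h2 : Q = MvPolynomial.C (Q.coeff 0) := by
        rw [← MvPolynomial.totalDegree_eq_zero_iff_eq_C]
        exact h.hom.totalDegree h.ne
      rw [h2] at h1 ⊢
      rw [MvPolynomial.eval_C] at h1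
      rw [h1, map_zero]
    obtain ⟨X, -, c, hX⟩ := h.good 0 h0 (fun _ => 1)
    have := congrFun hX ⟨0, hm⟩
    simp at this
  have hne : ∀ ν, MvPolynomial.eval ν (Q ^ 2) ≠ 0 → MvPolynomial.eval ν Q ≠ 0 := by
    intro ν h1 h2
    apply h1
    rw [map_pow, h2]
    norm_num
  refine ⟨by omega, ?_, pow_ne_zero 2 h.ne, ?_, ?_⟩
  · have := h.hom.pow 2
    rwa [mul_comm] at this
  · rintro _ ⟨_, ⟨g, rfl⟩, rfl⟩ ν
    rw [map_pow, map_pow]
    congr 1
    have := h.inv g⁻¹ ν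
    rw [map_inv] at this
    exact this
  · intro ν hν y
    obtain ⟨X, hX, c, hy⟩ := h.good ν (hne ν hν) y
    obtain ⟨x, hx⟩ := exists_DL L (-X) (L.neg_mem hX)
    refine ⟨x, c, ?_⟩
    rw [hx, transpose_neg, neg_neg]
    exact hy

end Pool.Agent.Run7.h314.LK
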