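import Pool.Agent.Run7.h314.LK.Geo
import Pool.Agent.Run7.h314.LK.Lin

/-! Project LK: closed Reeb orbits from prehomogeneous symmetry, elementary form. -/

open scoped Topology ContDiff Manifold
open Set Matrix

set_option autoImplicit false
set_option linter.unusedSectionVars false

noncomputable section

namespace Pool.Agent.Run7.h314.LK

open Pool.Agent.H826R2.WStmt Pool.Agent.N696.LI

universe u

variable {E : Type u} [NormedAddCommGroup E] [NormedSpace ℝ E] [FiniteDimensional ℝ E]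
  {M : Type*} [TopologicalSpace M] [ChartedSpace E M] [IsManifold 𝓘(ℝ, E) ∞ M]
  {P : Type*} [TopologicalSpace P] [ChartedSpace E P] [IsManifold 𝓘(ℝ, E) ∞ P]

/-- The group `𝒢` acts on `P` by smooth maps which preserve the one-form `β`. -/
structure StrictAction (𝒢 : Type*) [Group 𝒢] [MulAction 𝒢 P] (β : P → Cov E) : Prop where
  smooth : ∀ g : 𝒢, ContMDiff 𝓘(ℝ, E) 𝓘(ℝ, E) ∞ (fun x : P => g • x)
  strict : ∀ g : 𝒢, pull (fun x : P => g • x) β = β

theorem exists_periodic_prehom (hrd : S_rd) [T2Space M] [CompactSpace M]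
    (α : M → Cov E) (hα : IsContact α) (R : M → E) (hR : IsReeb α R)
    [T2Space P] [SigmaCompactSpace P] [Nonempty P]
    {𝒢 : Type*} [Group 𝒢] [MulAction 𝒢 P] (Γ : Subgroup 𝒢) (q : P → M)
    (hq : IsQuotientMap E q Γ) (h𝒢 : StrictAction 𝒢 (pull (E := E) q α))
    {m : ℕ} (hm : 0 < m) (A : TorusAction (pull (E := E) q α) m)
    (ρ : 𝒢 →* (Matrix (Fin m) (Fin m) ℝ)ˣ)
    (hρ : ∀ (g : 𝒢) (θ : Fin m → ℝ) (x : P),
      g • A.act θ x = A.act ((ρ g : Matrix (Fin m) (Fin m) ℝ).mulVec θ) (g • x))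
    (L : Submodule ℝ (Matrix (Fin m) (Fin m) ℝ)) (hL : Monodromy L ρ Γ)
    (d : ℕ) (Q : MvPolynomial (Fin m) ℝ) (hQ : Prehomogeneous L ρ d Q) :
    ∃ (c : ℝ → M) (T : ℝ), IsPeriodicOrbit R c T := by
  have hLG := linGrp_of L hL
  have hLP := linPoly_of L hm hQ
  have hrd' := hrd m _ (DL L) _ _ _ _ hLG hLP hm
  obtain ⟨c, T, h1, h2, h3⟩ := exists_closed_prehom hα.toWein hR.toWein hq.toWein A.toWein
    (DL L) (ρ.range.map tau) (2 * d) (Q ^ 2) hLP hLG.exp_mem hrd' (by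
      rintro _ ⟨_, ⟨g, rfl⟩, rfl⟩
      refine ⟨fun x => g • x, h𝒢.smooth g, fun x u => ?_, fun θ x => ?_⟩
      · have h := congrFun (h𝒢.strict g) x
        have h2 := congrArg (fun a : Cov E => ev a (u : E)) h
        exact h2
      · rw [tau_inv_val]
        exact hρ g θ x) (by
      rintro ⟨γ, hγ⟩
      refine ⟨tau (ρ γ), Subgroup.mem_map.2 ⟨ρ γ, ⟨γ, rfl⟩, rfl⟩, fun θ x => ?_⟩
      rw [tau_inv_val]
      exact hρ γ θ x)
  exact ⟨c, T, h1, h2, h3⟩

end Pool.Agent.Run7.h314.LK
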