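import Pool.Agent.Run7.h314.LK.HPoly
import Pool.Agent.N424.LI.Minv

/-! Project LK: locally homogeneous contact forms, the invariant polynomial on the covectors of
the ideal and the main theorem from the parts. -/

set_option autoImplicit false
set_option linter.unusedSectionVars false

noncomputable section

namespace Pool.Agent.Run7.h314.LK

open Topology Filter MvPolynomial Pool.Agent.N696.LI

variable {A : Type} [NormedRing A] [NormedAlgebra ℝ A] [FiniteDimensional ℝ A]

section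

variable {𝔤 : Submodule ℝ A} {Γ : Subgroup Aˣ} {v : Submodule ℝ A} {m : ℕ} {b : Fin m → A}
  {c : A →ₗ[ℝ] (Fin m → ℝ)}

/-- There is no open orbit. -/
theorem exists_ann (hexpm : S_expm) (hnoop : S_noop) (hS : Setting 𝔤 Γ v) (hc : Co Γ v b c)
    (hv : ∀ g ∈ grp 𝔤, ∀ y ∈ v, cj g y ∈ v) (β : A →ₗ[ℝ] ℝ) :
    ∃ x ∈ v, x ≠ 0 ∧ ∀ X ∈ 𝔤, β (br x X) = 0 := by
  by_contra hcon
  push Not at hcon
  refine hnoop m 𝔤 (DD 𝔤 b c) (GG hc hv) (GammaM hc hv) (linGrp hexpm hS hc hv) hc.pos
    (cov b β) ?_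
  refine surj_of_dot (Dnu (DD 𝔤 b c) (cov b β)) fun x hx => ?_
  by_contra hx0
  obtain ⟨X, hX, hX2⟩ := hcon (∑ i, x i • b i) (sum_mem_v hc x) (by
    intro h0
    apply hx0
    have := hc.c_sum x
    rw [h0, map_zero] at this
    exact this.symm)
  apply hX2
  have h3 := dot_DD hc hS.v_ideal ⟨X, hX⟩ β x
  have h4 : - β (br X (∑ i, x i • b i)) = 0 := by rw [← h3]; exact hx ⟨X, hX⟩
  rw [br_swap, map_neg]; exact h4

/-- elements of the Lie algebra of `H` are in the kernel -/
theorem rad_of_inLie {H : Subgroup Aˣ} {α : A →ₗ[ℝ] ℝ} {ξ : A} (h : IsContactOn 𝔤 H α ξ)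
    {X : A} (hX : InLie H X) : ∀ Y ∈ 𝔤, α (br X Y) = 0 := by
  intro Y hY
  have h1 := Poly2.deriv_conj X Y
  have h2 := (LinearMap.toContinuousLinearMap α).hasFDerivAt.comp_hasDerivAt (0 : ℝ) h1
  have h3 : ((LinearMap.toContinuousLinearMap α : A → ℝ) ∘ fun s : ℝ =>
      NormedSpace.exp (s • X) * Y * NormedSpace.exp (s • (-X))) = fun _ => α Y := by
    funext s
    obtain ⟨g, hg, he⟩ := hX s
    have h4 : g = expU (s • X) := Units.ext he
    have h5 : ((g⁻¹ : Aˣ) : A) = NormedSpace.exp (s • (-X)) := by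
      rw [h4, expU_inv, expU_val, smul_neg]
    have h6 := h.inv g hg Y hY
    unfold cj at h6
    rw [he, h5] at h6
    exact h6
  rw [h3] at h2
  exact (h2.unique (hasDerivAt_const (0 : ℝ) (α Y)))

/-- The kernel of the contact form. -/
theorem inLie_of_ker {H : Subgroup Aˣ} {α : A →ₗ[ℝ] ℝ} {ξ : A} (h : IsContactOn 𝔤 H α ξ)
    {X : A} (hX : X ∈ 𝔤) (h1 : ∀ Y ∈ 𝔤, α (br X Y) = 0) (h2 : α X = 0) : InLie H X := by
  obtain ⟨c, hc⟩ := h.uniq X hX h1
  have h3 := h.zero _ (𝔤.sub_mem hX (𝔤.smul_mem c h.mem)) hc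
  rw [map_sub, map_smul, h.one, h2, smul_eq_mul, mul_one, zero_sub, neg_eq_zero] at h3
  rw [h3, zero_smul, sub_zero] at hc
  exact hc

/-- The invariant polynomial. -/
theorem exists_linPolyH (hexpm : S_expm) (hnoop : S_noop) (hopen : S_open) (hpoly : S_polyh)
    (hcomp : S_comp) (hS : Setting 𝔤 Γ v)
    (hc : Co Γ v b c) (hv : ∀ g ∈ grp 𝔤, ∀ y ∈ v, cj g y ∈ v) (H : Subgroup Aˣ)
    (α : A →ₗ[ℝ] ℝ) (ξ : A) (hα : IsContactOn 𝔤 H α ξ) :
    ∃ (d : ℕ) (Q : MvPolynomial (Fin m) ℝ), LinPoly (DD 𝔤 b c) (GG hc hv) d Q ∧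
      eval (cov b α) Q ≠ 0 := by
  have h𝔤 := cj_mem hexpm 𝔤 𝔤 hS.lie
  -- an adapted basis
  have hbg : ∀ i, b i ∈ 𝔤 := fun i => hS.v_le (hc.b_mem i)
  let b' : Fin m → 𝔤 := fun i => ⟨b i, hbg i⟩
  have hli : LinearIndependent ℝ b := by
    rw [Fintype.linearIndependent_iff]
    intro x hx i
    have := hc.c_sum x
    rw [hx, map_zero] at this
    exact congrFun this.symm i
  have hspan : Submodule.span ℝ (Set.range b) = v := by
    apply le_antisymm
    · rw [Submodule.span_le]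
      rintro _ ⟨i, rfl⟩
      exact hc.b_mem i
    · intro y hy
      rw [hc.sum_c y hy]
      exact Submodule.sum_mem _ fun i _ =>
        Submodule.smul_mem _ _ (Submodule.subset_span ⟨i, rfl⟩)
  have hb' : LinearIndependent ℝ b' := by
    have : LinearIndependent ℝ (𝔤.subtype ∘ b') := hli
    exact LinearIndependent.of_comp _ this
  let B := Module.Basis.sumExtend hb'
  have hBl : ∀ j, B (Sum.inl j) = b' j := by
    intro j
    simp only [B, Module.Basis.sumExtend, Module.Basis.reindex_apply,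
      Module.Basis.extend_apply_self]
    rfl
  have hfin : Finite (Fin m ⊕ Module.Basis.sumExtendIndex hb') := Module.Finite.finite_basis B
  have : Fintype (Fin m ⊕ Module.Basis.sumExtendIndex hb') := Fintype.ofFinite _
  let n := Fintype.card (Fin m ⊕ Module.Basis.sumExtendIndex hb')
  let σ : (Fin m ⊕ Module.Basis.sumExtendIndex hb') ≃ Fin n := Fintype.equivFin _
  let e : Module.Basis (Fin n) ℝ 𝔤 := B.reindex σ
  have he : ∀ j, e (σ (Sum.inl j)) = b' j := by
    intro j
    rw [Module.Basis.reindex_apply, Equiv.symm_apply_apply, hBl]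
  -- coordinates
  set E := e.equivFun with hE
  let V : Submodule ℝ (Fin n → ℝ) := v.comap (𝔤.subtype ∘ₗ E.symm.toLinearMap)
  have hV : ∀ x, x ∈ V ↔ ((E.symm x : 𝔤) : A) ∈ v := fun x => Iff.rfl
  have hdot := dot_cv e
  have hneg : ∀ X : Fin n → ℝ, (∀ Y, dotProduct (fun i => α (e i)) (bb hS.lie e X Y) = 0) →
      dotProduct (fun i => α (e i)) X = 0 → X ≠ 0 → KK hS.lie e X X < 0 := by
    intro X hX1 hX2 hX0
    have hX1' : ∀ Y ∈ 𝔤, α (br (E.symm X : A) Y) = 0 := by
      intro Y hY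
      have := hX1 (E ⟨Y, hY⟩)
      rw [hdot, symm_bb, ← hE, LinearEquiv.symm_apply_apply] at this
      exact this
    have hX2' : α (E.symm X : A) = 0 := by
      rw [hdot] at hX2
      exact hX2
    have hin := inLie_of_ker hα (E.symm X).2 hX1' hX2'
    have h3 := hcomp A 𝔤 H hα.compact (fun h hh Y hY => h𝔤 h (hα.le hh) Y hY)
      (E.symm X : A) hin (E.symm.conj (bb hS.lie e X)) (by
        intro Y
        rw [LinearEquiv.conj_apply_apply, LinearEquiv.symm_symm]
        rw [symm_bb, LinearEquiv.symm_apply_apply])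
    rcases h3 with h3 | h3
    · exfalso
      apply hX0
      have h4 := hα.effective _ (E.symm X).2 hin (by
        intro Y hY
        have h5 := congrArg (fun φ : 𝔤 →ₗ[ℝ] 𝔤 => ((φ ⟨Y, hY⟩ : 𝔤) : A)) h3
        simp only [LinearMap.zero_apply, Submodule.coe_zero] at h5
        rw [LinearEquiv.conj_apply_apply, LinearEquiv.symm_symm, symm_bb,
          ← hE, LinearEquiv.symm_apply_apply] at h5
        exact h5)
      have h6 : E.symm X = 0 := Subtype.ext h4
      exact (LinearEquiv.map_eq_zero_iff E.symm).1 h6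
    · rw [← LinearEquiv.conj_comp, LinearMap.trace_conj'] at h3
      rw [KK_apply]
      exact h3
  obtain ⟨d, P, hPh, hP0, hPg, hPt, hPi⟩ := hpoly n (bb hS.lie e) (KK hS.lie e) V
    (fun i => α (e i)) (E ⟨ξ, hα.mem⟩) (bb_skew hS.lie e) (bb_jac hS.lie e) (by
      intro X
      rw [← hS.unimodular _ (E.symm X).2 (E.symm.conj (bb hS.lie e X)) (by
        intro Y
        rw [LinearEquiv.conj_apply_apply, LinearEquiv.symm_symm]
        rw [symm_bb, LinearEquiv.symm_apply_apply]), LinearMap.trace_conj'])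
    (KK_comm hS.lie e) (KK_inv hS.lie e) (by
      intro x hx Z
      exact KK_ideal hS.lie e hS.v_ideal hS.v_comm x hx Z) (by
      intro β
      obtain ⟨β', hβ'⟩ := LinearMap.exists_extend (e.constr ℝ β)
      have hβe : ∀ i, β' (e i) = β i := by
        intro i
        have h2 := congrArg (fun φ : 𝔤 →ₗ[ℝ] ℝ => φ (e i)) hβ'
        simp only [LinearMap.comp_apply, Submodule.subtype_apply] at h2
        rw [h2, Module.Basis.constr_basis]
      have hβ : β = fun i => β' (e i) := (funext hβe).symm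
      obtain ⟨x, hx, hx0, hx2⟩ := exists_ann hexpm hnoop hS hc hv β'
      refine ⟨E ⟨x, hS.v_le hx⟩, ?_, ?_, ?_⟩
      · rw [hV, LinearEquiv.symm_apply_apply]; exact hx
      · intro h0
        apply hx0
        have := (LinearEquiv.map_eq_zero_iff E).1 h0
        exact congrArg Subtype.val this
      · intro Z
        rw [hβ, hdot, symm_bb, ← hE, LinearEquiv.symm_apply_apply]
        exact hx2 _ (E.symm Z).2)
    (by rw [hdot, ← hE, LinearEquiv.symm_apply_apply]; exact hα.one)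
    (by
      intro Y
      rw [hdot, symm_bb, ← hE, LinearEquiv.symm_apply_apply]
      exact hα.rad _ (E.symm Y).2)
    hneg
  -- the polynomial on the covectors of `v`
  let f : Fin n → MvPolynomial (Fin m) ℝ := fun i =>
    Sum.elim (fun j => X j) (fun _ => 0) (σ.symm i)
  have hf : ∀ i, (f i).IsHomogeneous 1 := by
    intro i
    show (Sum.elim (fun j => X j) (fun _ => 0) (σ.symm i) : MvPolynomial (Fin m) ℝ).IsHomogeneous 1
    rcases σ.symm i with j | j
    · exact isHomogeneous_X ℝ j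
    · exact isHomogeneous_zero _ _ _
  have hval : ∀ β : A →ₗ[ℝ] ℝ, eval (cov b β) (MvPolynomial.aeval f P) =
      eval (fun i => β (e i)) P := by
    intro β
    let w : Fin n → ℝ := fun i => Sum.elim (fun j => β (b j)) (fun _ => 0) (σ.symm i)
    have h1 : eval w P = eval (fun i => β (e i)) P := by
      have h2 := hPt (fun i => β (e i)) (w - fun i => β (e i)) (by
        intro x hx
        rw [sub_dotProduct, sub_eq_zero]
        have hx' : ((E.symm x : 𝔤) : A) ∈ v := hx
        have hxs : x = ∑ j, (c (E.symm x : A) j) • E (b' j) := by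
          apply E.symm.injective
          rw [map_sum]
          simp only [map_smul, LinearEquiv.symm_apply_apply]
          apply Subtype.ext
          rw [Submodule.coe_sum]
          conv_lhs => rw [hc.sum_c _ hx']
          rfl
        rw [hxs, dotProduct_sum, dotProduct_sum]
        refine Finset.sum_congr rfl fun j _ => ?_
        rw [dotProduct_smul, dotProduct_smul]
        congr 1
        rw [hdot, ← hE, LinearEquiv.symm_apply_apply]
        have h3 : E (b' j) = Pi.single (σ (Sum.inl j)) 1 := by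
          rw [← he, hE]
          funext i
          rw [Module.Basis.equivFun_apply, Module.Basis.repr_self, Finsupp.single_apply,
            Pi.single_apply]
          simp only [eq_comm]
        rw [h3, dotProduct_single, mul_one]
        show Sum.elim (fun j => β (b j)) (fun _ => 0) (σ.symm (σ (Sum.inl j))) = β (b j)
        rw [Equiv.symm_apply_apply]
        rfl)
      rw [add_sub_cancel] at h2
      exact h2
    rw [← h1]
    have h3 : (MvPolynomial.aeval (cov b β) : MvPolynomial (Fin m) ℝ →ₐ[ℝ] ℝ).comp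
        (MvPolynomial.aeval f) = MvPolynomial.aeval w := by
      apply MvPolynomial.algHom_ext
      intro i
      rw [AlgHom.comp_apply, aeval_X, aeval_X]
      show MvPolynomial.aeval (cov b β)
        (Sum.elim (fun j => X j) (fun _ => 0) (σ.symm i) : MvPolynomial (Fin m) ℝ) =
        Sum.elim (fun j => β (b j)) (fun _ => 0) (σ.symm i)
      rcases σ.symm i with j | j
      · simp [cov]
      · simp
    have h4 := congrArg (fun φ : MvPolynomial (Fin n) ℝ →ₐ[ℝ] ℝ => φ P) h3
    simp only [AlgHom.comp_apply] at h4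
    exact h4
  set Q₀ : MvPolynomial (Fin m) ℝ := MvPolynomial.aeval f P with hQ₀
  have hQ0h : Q₀.IsHomogeneous d := by
    have := hPh.aeval f hf
    rwa [one_mul] at this
  -- extension of covectors
  have hext : ∀ β : Fin n → ℝ, ∃ β' : A →ₗ[ℝ] ℝ, ∀ i, β' (e i) = β i := by
    intro β
    obtain ⟨β', hβ'⟩ := LinearMap.exists_extend (e.constr ℝ β)
    refine ⟨β', fun i => ?_⟩
    have h2 := congrArg (fun φ : 𝔤 →ₗ[ℝ] ℝ => φ (e i)) hβ'
    simp only [LinearMap.comp_apply, Submodule.subtype_apply] at h2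
    rw [h2, Module.Basis.constr_basis]
  have hQ00 : Q₀ ≠ 0 := by
    intro h0
    apply hP0
    apply MvPolynomial.funext
    intro β
    obtain ⟨β', hβ'⟩ := hext β
    have h1 := hval β'
    rw [h0, map_zero] at h1
    rw [map_zero, h1]
    congr 2
    exact (funext hβ').symm
  have hinv : ∀ g ∈ grp 𝔤, ∀ β : A →ₗ[ℝ] ℝ,
      eval (fun i => β (cj g (e i))) P = eval (fun i => β (e i)) P := by
    intro g hg β
    let C : 𝔤 →ₗ[ℝ] 𝔤 := (cjL g).restrict (fun x hx => h𝔤 g hg x hx)
    have hC : ∀ Y : 𝔤, (C Y : A) = cj g Y := fun Y => rfl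
    have hdet : LinearMap.det (E.conj C) = 1 := by
      rw [LinearEquiv.conj_apply, LinearMap.comp_assoc, LinearMap.det_conj]
      exact det_cj hexpm 𝔤 hS.lie hS.unimodular g hg C hC
    have hTs : ∀ Y : Fin n → ℝ, ((E.symm (E.conj C Y) : 𝔤) : A) = cj g (E.symm Y : A) := by
      intro Y
      rw [LinearEquiv.conj_apply_apply, LinearEquiv.symm_apply_apply, hC]
    have hau : ∀ X Y, bb hS.lie e (E.conj C X) (E.conj C Y) = E.conj C (bb hS.lie e X Y) := by
      intro X Y
      apply eq_of_symm e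
      rw [symm_bb, ← hE, hTs, hTs, hTs, hE, symm_bb, cj_br]
    refine hPi (E.conj C) hdet hau (KK_auto hS.lie e _ hdet hau) _ _ fun X => ?_
    rw [hdot, ← hE, hTs]
    have := dot_cv e (β ∘ₗ cjL g) X
    exact this
  have hinv2 : ∀ g ∈ grp 𝔤, ∀ β : A →ₗ[ℝ] ℝ, eval (cov b (β ∘ₗ cjL g)) Q₀ = eval (cov b β) Q₀ := by
    intro g hg β
    rw [hval, hval]
    exact hinv g hg β
  have hgood : ∀ ν, eval ν Q₀ ≠ 0 → ∀ y, ∃ X, ∃ t : ℝ,
      y = (DD 𝔤 b c X).mulVec ν + t • ν := by
    intro ν hν y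
    obtain ⟨β, rfl⟩ := exists_cov hc ν
    rw [hval] at hν
    have hsurj := surj_of_dot
      ((Dnu (DD 𝔤 b c) (cov b β)).coprod (LinearMap.toSpanSingleton ℝ _ (cov b β))) (by
        intro x hx
        have hxv := sum_mem_v hc x
        have h0 := hPg (fun i => β (e i)) hν (E ⟨∑ i, x i • b i, hS.v_le hxv⟩) (by
            rw [hV, LinearEquiv.symm_apply_apply]; exact hxv) (by
            intro Z
            rw [hdot, symm_bb, ← hE, LinearEquiv.symm_apply_apply]
            have h2 := hx (E.symm Z, 0)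
            have h3 := dot_DD hc hS.v_ideal (E.symm Z) β x
            have h4 : - β (br (E.symm Z : A) (∑ i, x i • b i)) = 0 := by
              rw [← h3]
              have h5 : dotProduct (Dnu (DD 𝔤 b c) (cov b β) (E.symm Z)) x = 0 := by
                simpa using h2
              exact h5
            rw [br_swap, map_neg]; exact h4) (by
            rw [hdot, ← hE, LinearEquiv.symm_apply_apply]
            have h2 := hx (0, 1)
            have h3 : dotProduct (cov b β) x = 0 := by simpa using h2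
            rw [dot_cov] at h3
            exact h3)
        have h6 := (LinearEquiv.map_eq_zero_iff E).1 h0
        have h7 : ∑ i, x i • b i = 0 := congrArg Subtype.val h6
        have := hc.c_sum x
        rw [h7, map_zero] at this
        exact this.symm)
    obtain ⟨⟨X, t⟩, hX⟩ := hsurj y
    refine ⟨X, t, ?_⟩
    rw [hX]
    rfl
  have hd : d ≠ 0 := by
    rintro rfl
    have h0 : eval (0 : Fin m → ℝ) Q₀ ≠ 0 := by
      intro h1
      apply hQ00
      have h2 : Q₀ = MvPolynomial.C (Q₀.coeff 0) := by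
        rw [← MvPolynomial.totalDegree_eq_zero_iff_eq_C]
        exact hQ0h.totalDegree hQ00
      rw [h2] at h1 ⊢
      rw [MvPolynomial.eval_C] at h1
      rw [h1, map_zero]
    obtain ⟨X, t, hX⟩ := hgood 0 h0 (fun _ => 1)
    have := congrFun hX ⟨0, hc.pos⟩
    simp at this
  refine ⟨2 * d, Q₀ ^ 2, ⟨by omega, ?_, pow_ne_zero 2 hQ00, ?_, ?_⟩, ?_⟩
  · have := hQ0h.pow 2
    rwa [mul_comm] at this
  · rintro _ ⟨g, rfl⟩ ν
    obtain ⟨β, rfl⟩ := exists_cov hc ν
    rw [rho_mulVec, map_pow, map_pow, hinv2 _ ((grp 𝔤).inv_mem g.2) β]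
  · intro ν hν y
    refine hgood ν (fun h2 => hν ?_) y
    rw [map_pow, h2]
    norm_num
  · rw [map_pow]
    apply pow_ne_zero
    -- the orbit of `α`, up to scaling, is open
    intro h0
    apply hQ00
    have hsurj := surj_of_dot
      ((Dnu (DD 𝔤 b c) (cov b α)).coprod (LinearMap.toSpanSingleton ℝ _ (cov b α))) (by
        intro x hx
        have hxv := sum_mem_v hc x
        have hz : ∀ Z ∈ 𝔤, α (br (∑ i, x i • b i) Z) = 0 := by
          intro Z hZ
          have h2 := hx (⟨Z, hZ⟩, 0)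
          have h3 := dot_DD hc hS.v_ideal ⟨Z, hZ⟩ α x
          have h4 : - α (br Z (∑ i, x i • b i)) = 0 := by
            rw [← h3]
            have h5 : dotProduct (Dnu (DD 𝔤 b c) (cov b α) ⟨Z, hZ⟩) x = 0 := by
              simpa using h2
            exact h5
          rw [br_swap, map_neg]; exact h4
        have hz2 : α (∑ i, x i • b i) = 0 := by
          have h2 := hx (0, 1)
          have h3 : dotProduct (cov b α) x = 0 := by simpa using h2
          rw [dot_cov] at h3
          exact h3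
        by_contra hx0
        have hE0 : E ⟨∑ i, x i • b i, hS.v_le hxv⟩ ≠ 0 := by
          intro h0
          apply hx0
          have h6 := (LinearEquiv.map_eq_zero_iff E).1 h0
          have h7 : ∑ i, x i • b i = 0 := congrArg Subtype.val h6
          have := hc.c_sum x
          rw [h7, map_zero] at this
          exact this.symm
        have h8 := hneg (E ⟨∑ i, x i • b i, hS.v_le hxv⟩) (by
          intro Y
          rw [hdot, symm_bb, ← hE, LinearEquiv.symm_apply_apply]
          exact hz _ (E.symm Y).2) (by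
          rw [hdot, ← hE, LinearEquiv.symm_apply_apply]
          exact hz2) hE0
        have h9 := KK_ideal hS.lie e hS.v_ideal hS.v_comm
          (E ⟨∑ i, x i • b i, hS.v_le hxv⟩) (by
            rw [← hE, LinearEquiv.symm_apply_apply]; exact hxv)
          (E ⟨∑ i, x i • b i, hS.v_le hxv⟩)
        rw [h9] at h8
        exact lt_irrefl _ h8)
    let D' : (𝔤 × ℝ) →ₗ[ℝ] Mat m :=
      (DD 𝔤 b c).coprod (LinearMap.toSpanSingleton ℝ (Mat m) 1)
    have hD' : ∀ p, D' p = DD 𝔤 b c p.1 + p.2 • (1 : Mat m) := fun p => rfl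
    have hU := hopen m (𝔤 × ℝ) D' (cov b α) (by
      intro y
      obtain ⟨⟨X, t⟩, hX⟩ := hsurj y
      refine ⟨(X, t), ?_⟩
      rw [hD', Matrix.add_mulVec, Matrix.smul_mulVec, Matrix.one_mulVec, hX]
      rfl) Set.univ Filter.univ_mem
    obtain ⟨ε, hε, hball⟩ := Metric.mem_nhds_iff.1 hU
    have hvan : ∀ y ∈ Metric.ball (cov b α) ε, eval y Q₀ = 0 := by
      intro y hy
      obtain ⟨⟨X, t⟩, -, rfl⟩ := hball hy
      have h1 : NormedSpace.exp (D' (X, t)) = Real.exp t • NormedSpace.exp (DD 𝔤 b c X) := by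
        rw [hD', add_comm]
        exact Pool.Agent.N424.LI.exp_shift t (DD 𝔤 b c X)
      rw [h1, Matrix.smul_mulVec, Pool.Agent.N424.LI.eval_smul_hom hQ0h]
      rw [← rho_exp hexpm hc hv hS.v_ideal X, rho_mulVec,
        hinv2 _ ((grp 𝔤).inv_mem (expU_mem X.2)) α, h0, mul_zero]
    refine MvPolynomial.funext_set (fun i => Set.Ioo (cov b α i - ε) (cov b α i + ε))
      (fun i => Set.Ioo_infinite (by linarith)) ?_
    intro y hy
    rw [map_zero]
    refine hvan y ?_
    rw [Metric.mem_ball, dist_pi_lt_iff hε]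
    intro i
    have h4 := hy i (Set.mem_univ i)
    rw [Real.dist_eq, abs_lt]
    constructor
    · linarith [h4.1]
    · linarith [h4.2]

/-- The ideal acts locally freely. -/
theorem ideal_inter (hexpm : S_expm) (hcomp : S_comp) (hS : Setting 𝔤 Γ v) {H : Subgroup Aˣ}
    {α : A →ₗ[ℝ] ℝ} {ξ : A} (hα : IsContactOn 𝔤 H α ξ) {w : A} (hw : w ∈ v)
    (hin : InLie H w) : w = 0 := by
  have h𝔤 := cj_mem hexpm 𝔤 𝔤 hS.lie
  let T : 𝔤 →ₗ[ℝ] 𝔤 := (adL w).restrict (fun Y hY => hS.lie w (hS.v_le hw) Y hY)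
  have hT : ∀ Y, (T Y : A) = br w Y := fun Y => rfl
  have hT2 : T ∘ₗ T = 0 := by
    refine LinearMap.ext fun Y => ?_
    apply Subtype.ext
    rw [LinearMap.comp_apply, hT, hT, LinearMap.zero_apply, Submodule.coe_zero]
    have h1 : br w (Y : A) ∈ v := by
      rw [br_swap]
      exact v.neg_mem (hS.v_ideal _ Y.2 _ hw)
    unfold br at h1 ⊢
    rw [hS.v_comm _ hw _ h1, sub_self]
  rcases hcomp A 𝔤 H hα.compact (fun h hh Y hY => h𝔤 h (hα.le hh) Y hY) w hin T hT with h | h
  · refine hα.effective w (hS.v_le hw) hin fun Y hY => ?_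
    have := congrArg (fun φ : 𝔤 →ₗ[ℝ] 𝔤 => ((φ ⟨Y, hY⟩ : 𝔤) : A)) h
    exact this
  · rw [hT2, map_zero] at h
    exact absurd h (lt_irrefl _)

theorem main_hom (hexpm : S_expm) (hlat : S_lat) (hnoop : S_noop) (hopen : S_open)
    (hpoly : S_polyh) (hcomp : S_comp) (hrd : S_rd) (hS : Setting 𝔤 Γ v) (H : Subgroup Aˣ)
    (α : A →ₗ[ℝ] ℝ) (ξ : A) (hα : IsContactOn 𝔤 H α ξ) :
    ∀ g ∈ grp 𝔤, ∀ W ∈ 𝓝 g, ∃ g' ∈ grp 𝔤, g' ∈ W ∧ ∃ T : ℝ, 0 < T ∧ ∃ γ ∈ Γ, ∃ h ∈ H,
      (g' : A) * NormedSpace.exp (T • ξ) = γ * g' * h := by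
  obtain ⟨m, b, c, hc⟩ := exists_co hlat hS
  have hv := cj_mem hexpm 𝔤 v hS.v_ideal
  obtain ⟨d, Q, hQ, hQ2⟩ := exists_linPolyH hexpm hnoop hopen hpoly hcomp hS hc hv H α ξ hα
  have hR := hrd m 𝔤 (DD 𝔤 b c) _ _ d Q (linGrp hexpm hS hc hv) hQ hc.pos
  intro g hg W hW
  have h𝔤 := cj_mem hexpm 𝔤 𝔤 hS.lie
  set ν : Fin m → ℝ := cov b (α ∘ₗ cjL (g⁻¹)) with hν
  have hν2 : eval ν Q ≠ 0 := by
    have h1 : ν = ((rho hc hv ⟨g, hg⟩ : (Mat m)ˣ) : Mat m).mulVec (cov b α) :=
      (rho_mulVec hc hv ⟨g, hg⟩ α).symm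
    rw [h1, hQ.inv _ ⟨_, rfl⟩]
    exact hQ2
  have hU : {X : 𝔤 | expU (X : A) * g ∈ W} ∈ 𝓝 (0 : 𝔤) := by
    have hcont : Continuous (fun X : 𝔤 => expU (X : A) * g) :=
      (continuous_expU.comp continuous_subtype_val).mul continuous_const
    have h0 : expU ((0 : 𝔤) : A) * g = g := by
      have : expU ((0 : 𝔤) : A) = 1 := by
        ext
        show NormedSpace.exp (0 : A) = 1
        exact NormedSpace.exp_zero
      rw [this, one_mul]
    exact hcont.continuousAt.preimage_mem_nhds (by rw [h0]; exact hW)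
  obtain ⟨X, hX, x, hx1, hx2⟩ := hR ν hν2 _ hU
  set g' : Aˣ := expU (X : A) * g with hg'
  have hg'm : g' ∈ grp 𝔤 := (grp 𝔤).mul_mem (expU_mem X.2) hg
  refine ⟨g', hg'm, hX, ?_⟩
  have hν' : (NormedSpace.exp (DD 𝔤 b c X)).mulVec ν = cov b (α ∘ₗ cjL (g'⁻¹)) := by
    rw [← rho_exp hexpm hc hv hS.v_ideal X, hν, rho_mulVec]
    congr 1
    refine LinearMap.ext fun y => ?_
    simp only [LinearMap.comp_apply, cjL_apply, hg', mul_inv_rev, cj_mul]
  rw [hν'] at hx1 hx2
  set y : A := ∑ i, (x i : ℝ) • b i with hy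
  have hyv : y ∈ v := sum_mem_v hc _
  set z : A := cj (g'⁻¹) y with hz0
  have hz : z ∈ v := hv _ ((grp 𝔤).inv_mem hg'm) _ hyv
  have hpos : 0 < α z := by
    rw [dot_cov] at hx1
    exact hx1
  have hrad : ∀ Y ∈ 𝔤, α (br z Y) = 0 := by
    intro Y hY
    have h1 := hx2 ⟨cj g' Y, h𝔤 g' hg'm Y hY⟩
    rw [dot_DD hc hS.v_ideal] at h1
    simp only [LinearMap.comp_apply, cjL_apply] at h1
    rw [cj_br, cj_inv_cj] at h1
    rw [br_swap, map_neg]
    exact h1
  obtain ⟨t, ht⟩ := hα.uniq _ (hS.v_le hz) hrad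
  set η : A := z - t • ξ with hη
  have hηm : η ∈ 𝔤 := 𝔤.sub_mem (hS.v_le hz) (𝔤.smul_mem t hα.mem)
  have hη0 : α η = 0 := hα.zero η hηm ht
  have htpos : 0 < t := by
    rw [hη, map_sub, map_smul, hα.one, smul_eq_mul, mul_one, sub_eq_zero] at hη0
    rw [← hη0]
    exact hpos
  have hradη : ∀ Y ∈ 𝔤, α (br η Y) = 0 := rad_of_inLie hα ht
  -- they commute
  have hcomm : br z η = 0 := by
    have h1 : br z η ∈ v := by
      rw [br_swap]
      exact v.neg_mem (hS.v_ideal _ hηm _ hz)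
    refine ideal_inter hexpm hcomp hS hα h1 (inLie_of_ker hα (hS.v_le h1) ?_ (hrad η hηm))
    intro Y hY
    have h2 := hrad _ (hS.lie η hηm Y hY)
    have h3 := hradη _ (hS.lie z (hS.v_le hz) Y hY)
    have h4 : br (br z η) Y = br z (br η Y) - br η (br z Y) := by
      simp only [br]
      noncomm_ring
    rw [h4, map_sub, h2, h3, sub_zero]
  have hcomm' : Commute z η := sub_eq_zero.1 hcomm
  obtain ⟨N, k, hN, hk⟩ := exists_int_mul x
  have hNy : (N : ℝ) • y = ∑ i, (k i : ℝ) • b i := by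
    rw [hy, Finset.smul_sum]
    refine Finset.sum_congr rfl fun i _ => ?_
    rw [smul_smul, hk]
  obtain ⟨γ, hγ, hγe⟩ := (hc.exp_iff _ (v.smul_mem (N : ℝ) hyv)).2 ⟨k, hNy⟩
  obtain ⟨h, hh, hhe⟩ := ht (-(N : ℝ))
  refine ⟨N * t, mul_pos (by exact_mod_cast hN) htpos, γ, hγ, h, hh, ?_⟩
  have h5 : (N * t) • ξ = (N : ℝ) • z + (-(N : ℝ)) • η := by
    rw [hη, smul_sub, smul_smul, neg_smul, neg_mul, neg_smul]
    abel
  have _ : CompleteSpace A := FiniteDimensional.complete ℝ A
  let _ : NormedAlgebra ℚ A := NormedAlgebra.restrictScalars ℚ ℝ A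
  rw [h5, NormedSpace.exp_add_of_commute ((hcomm'.smul_left (N : ℝ)).smul_right (-(N : ℝ))),
    ← hhe, hz0, ← cj_smul, exp_cj, hγe]
  simp [cj, mul_assoc]

end

end Pool.Agent.Run7.h314.LK
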