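import Pool.Agent.Run7.h314.LK.Iface

/-! Project LK (problem MP_e3ee0c_gt), second interface: the invariant polynomial, in
coordinates. -/

set_option autoImplicit false

namespace Pool.Agent.Run7.h314.LK

open Topology Filter Pool.Agent.N696.LI

/-- POLYH: the invariant polynomial of a homogeneous contact form with compact isotropy, in
coordinates.  `b` is the bracket of a unimodular Lie algebra `ℝ^n`, `B` an invariant symmetric
form, `V` a subspace in the radical of `B`; `β : Fin n → ℝ` is the linear form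
`Y ↦ dotProduct β Y`.

Proof (from `S_bord`, `S_pk`, `S_neg`, `S_ndeg`).

Let `ι = Fin n ⊕ Unit`; for `β` let `M β` be the matrix of the bilinear form
`((X, a), (Z, c)) ↦ β (b X Z) + c β X - a β Z` on `ℝ^n × ℝ` (entries: `(inl i, inl j)`:
`β (b e_i e_j)`, `(inl i, inr)`: `β i`, `(inr, inl j)`: `-β j`, `(inr, inr)`: `0`), linear in `β`, and
`B'` the matrix of `((X, a), (Z, c)) ↦ B X Z`.  Let `P k` be the polynomials of `S_pk` for `M`, `B'`;
by `S_ndeg` there is `s` with `det (M α + s B') ≠ 0`, so some `P k ≠ 0`, `k ≤ n + 1`; let `K` be the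
largest such `k` and `P := P K`, `d := n + 1 - K`.

(a) If `eval β P ≠ 0`, then `det (M β + s B') ≠ 0` for some `s`.  If `x ∈ V`, `β (b x Z) = 0` for all
`Z`, `β x = 0`, then `(x, 0)` is in the kernel of `M β + s B'`, so `x = 0`.

(b) For `T` with `det T = 1` as in the last statement let `T'` be the matrix of `T ⊕ 1`:
`M (β ∘ T) + s B' = T'ᵀ (M β + s B') T'`, also with the variable `s` of polynomials
(`Matrix.map C`), so the determinants agree, coefficientwise.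

(c) Directions `β ∘ ad X`: let `Â` be the matrix of `ad X ⊕ 0` (`ad X = b X`).  By the Jacobi
identity `M (β ∘ ad X) = Âᵀ M β + (M β) Â`, and `Âᵀ B' + B' Â = 0`; so with
`𝓜 = M β + s B'` (polynomial matrix) `tr (adj 𝓜 · M (β ∘ ad X)) = 2 tr(Â) det 𝓜 = 0`.  By `S_pk`
(derivative) and `Hess.hasDerivAt_eval` (N696/LI/P_HESS.lean) the derivative
`∑ i, δ i * eval β (pderiv i P)` of `P` at `β` in the direction `δ = β ∘ ad X` vanishes.

(d) Directions `B(Y, ·)`, where `det (M β + s B') ≠ 0` for some `s`, `β (b Y Z) = 0` for all `Z`,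
`β Y = 0`.  Apply `S_bord` with `M₀ = M β`, `B'`, `A = - Â` (`Â` the matrix of `ad Y ⊕ 0`), `E₁` the
matrix of `(Z, c) ↦ (c Y, 0)`, `E₂ᵀ` the matrix of `(X, a) ↦ (- a Y, 0)`, `N` the matrix of
`((X, a), (Z, c)) ↦ c B Y X - a B Y Z`.  The hypotheses: `Aᵀ M₀ + M₀ A = 0` by Jacobi and
`β (b Y ·) = 0`; `Aᵀ B' + B' A = 0`; `s N = (M₀ + s B') E₁ + E₂ (M₀ + s B')`, because
`(M₀ + s B')(u, (Y, 0)) = s B X Y` and `(M₀ + s B')((Y, 0), w) = s B Y Z`; the traces of `E₁`, `E₂`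
vanish; and `B' A + N = M (B(Y, ·))`, because `B(Y, [X, Z]) = B([Y, X], Z) = - B(X, [Y, Z])`.  So the
derivative of `P` at `β` in the direction `B(Y, ·)` vanishes.

(e) Let `U` be as in `S_neg` and `β ∈ U` with `eval β P ≠ 0`, and let `δ` vanish on `V`.  By `hno` there
is `x ∈ V`, `x ≠ 0`, `β (b x Z) = 0` for all `Z`; by (a) `β x ≠ 0`.  On
`h = {Y | β (b Y ·) = 0, β Y = 0}` the form `B` is negative definite, so there is `Y ∈ h` with
`B Y Z = δ Z` for all `Z ∈ h`.  Then `δ - B(Y, ·)` vanishes on `h` and at `x` (`x ∈ V`), hence on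
`{Z | β (b Z ·) = 0} = h + ℝ x`, so it is `Z ↦ β (b Z X)` for some `X` (`Poly2.exists_rep` in
N696/LI/P_POLY2.lean).  By (c), (d) the derivative of `P` at `β` in the direction `δ` vanishes.

(f) The polynomial `∑ i, δ i * pderiv i P` vanishes on the nonempty open set
`{β ∈ interior U | eval β P ≠ 0}` (nonempty, since a polynomial that vanishes on an open set is
zero: restrict it to the lines through a point of the open set), hence it is zero, and
`t ↦ eval (β + t δ) P` is constant. -/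
def S_polyh : Prop := ∀ (n : ℕ) (b : (Fin n → ℝ) →ₗ[ℝ] (Fin n → ℝ) →ₗ[ℝ] (Fin n → ℝ))
  (B : (Fin n → ℝ) →ₗ[ℝ] (Fin n → ℝ) →ₗ[ℝ] ℝ) (V : Submodule ℝ (Fin n → ℝ)) (α ξ : Fin n → ℝ),
  (∀ X Y, b X Y = - b Y X) → (∀ X Y Z, b X (b Y Z) = b (b X Y) Z + b Y (b X Z)) →
  (∀ X, LinearMap.trace ℝ _ (b X) = 0) →
  (∀ X Y, B X Y = B Y X) → (∀ X Y Z, B (b X Y) Z = B X (b Y Z)) →
  (∀ x ∈ V, ∀ Z, B x Z = 0) →
  (∀ β : Fin n → ℝ, ∃ x ∈ V, x ≠ 0 ∧ ∀ Z, dotProduct β (b x Z) = 0) →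
  dotProduct α ξ = 1 → (∀ Y, dotProduct α (b ξ Y) = 0) →
  (∀ X, (∀ Y, dotProduct α (b X Y) = 0) → dotProduct α X = 0 → X ≠ 0 → B X X < 0) →
  ∃ (d : ℕ) (P : MvPolynomial (Fin n) ℝ), P.IsHomogeneous d ∧ P ≠ 0 ∧
    (∀ β, MvPolynomial.eval β P ≠ 0 → ∀ x ∈ V, (∀ Z, dotProduct β (b x Z) = 0) →
      dotProduct β x = 0 → x = 0) ∧
    (∀ β δ, (∀ x ∈ V, dotProduct δ x = 0) →
      MvPolynomial.eval (β + δ) P = MvPolynomial.eval β P) ∧
    ∀ T : (Fin n → ℝ) →ₗ[ℝ] (Fin n → ℝ), LinearMap.det T = 1 →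
      (∀ X Y, b (T X) (T Y) = T (b X Y)) → (∀ X Y, B (T X) (T Y) = B X Y) →
      ∀ β β' : Fin n → ℝ, (∀ X, dotProduct β' X = dotProduct β (T X)) →
        MvPolynomial.eval β' P = MvPolynomial.eval β P

end Pool.Agent.Run7.h314.LK
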