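import Pool.Agent.N696.LI.Red
import Pool.Agent.N696.LI.P_POLY2
import Pool.Agent.N692.LI.OPEN
import Pool.Agent.Run7.h314.LK.Iface2

/-! Project LK: homogeneous contact forms with compact isotropy, from the algebra `A` to
coordinates. -/

set_option autoImplicit false
set_option linter.unusedSectionVars false

noncomputable section

namespace Pool.Agent.Run7.h314.LK

open Topology Filter Pool.Agent.N696.LI

variable {A : Type} [NormedRing A] [NormedAlgebra ℝ A] [FiniteDimensional ℝ A]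

/-- The one-parameter group generated by `X` lies in `H`. -/
def InLie (H : Subgroup Aˣ) (X : A) : Prop :=
  ∀ t : ℝ, ∃ h ∈ H, (h : A) = NormedSpace.exp (t • X)

/-- `H` is a compact subgroup of the group of `𝔤`, acting almost effectively, and the linear form
`α` on `𝔤` is invariant under `H`, vanishes on the Lie algebra of `H` and induces an invariant
contact form on `G / H` with Reeb vector `ξ` modulo the Lie algebra of `H`. -/
structure IsContactOn (𝔤 : Submodule ℝ A) (H : Subgroup Aˣ) (α : A →ₗ[ℝ] ℝ) (ξ : A) : Prop where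
  le : H ≤ grp 𝔤
  compact : IsCompact (H : Set Aˣ)
  effective : ∀ X ∈ 𝔤, InLie H X → (∀ Y ∈ 𝔤, br X Y = 0) → X = 0
  inv : ∀ h ∈ H, ∀ Y ∈ 𝔤, α (cj h Y) = α Y
  zero : ∀ X ∈ 𝔤, InLie H X → α X = 0
  mem : ξ ∈ 𝔤
  one : α ξ = 1
  rad : ∀ Y ∈ 𝔤, α (br ξ Y) = 0
  uniq : ∀ X ∈ 𝔤, (∀ Y ∈ 𝔤, α (br X Y) = 0) → ∃ c : ℝ, InLie H (X - c • ξ)

section coord

variable {𝔤 : Submodule ℝ A} (hlie : ∀ X ∈ 𝔤, ∀ Y ∈ 𝔤, br X Y ∈ 𝔤) {n : ℕ}
  (e : Module.Basis (Fin n) ℝ 𝔤)

/-- the bracket in coordinates -/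
def bb : (Fin n → ℝ) →ₗ[ℝ] (Fin n → ℝ) →ₗ[ℝ] (Fin n → ℝ) :=
  LinearMap.mk₂ ℝ (fun X Y => e.equivFun
    ⟨br (e.equivFun.symm X : A) (e.equivFun.symm Y : A),
      hlie _ (e.equivFun.symm X).2 _ (e.equivFun.symm Y).2⟩)
    (by
      intro X X' Y
      rw [← map_add]
      congr 1
      apply Subtype.ext
      simp only [map_add, Submodule.coe_add, br]
      noncomm_ring)
    (by
      intro r X Y
      rw [← map_smul]
      congr 1
      apply Subtype.ext
      simp only [map_smul, Submodule.coe_smul, br, smul_mul_assoc, mul_smul_comm, smul_sub])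
    (by
      intro X Y Y'
      rw [← map_add]
      congr 1
      apply Subtype.ext
      simp only [map_add, Submodule.coe_add, br]
      noncomm_ring)
    (by
      intro r X Y
      rw [← map_smul]
      congr 1
      apply Subtype.ext
      simp only [map_smul, Submodule.coe_smul, br, smul_mul_assoc, mul_smul_comm, smul_sub])

lemma bb_apply (X Y : Fin n → ℝ) : bb hlie e X Y = e.equivFun
    ⟨br (e.equivFun.symm X : A) (e.equivFun.symm Y : A),
      hlie _ (e.equivFun.symm X).2 _ (e.equivFun.symm Y).2⟩ := rfl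

lemma symm_bb (X Y : Fin n → ℝ) : ((e.equivFun.symm (bb hlie e X Y) : 𝔤) : A) =
    br (e.equivFun.symm X : A) (e.equivFun.symm Y : A) := by
  rw [bb_apply, LinearEquiv.symm_apply_apply]

lemma eq_of_symm {X Y : Fin n → ℝ}
    (h : ((e.equivFun.symm X : 𝔤) : A) = ((e.equivFun.symm Y : 𝔤) : A)) : X = Y :=
  e.equivFun.symm.injective (Subtype.ext h)

lemma dot_cv (β : A →ₗ[ℝ] ℝ) (X : Fin n → ℝ) :
    dotProduct (fun i => β (e i)) X = β (e.equivFun.symm X : A) := by
  rw [Module.Basis.equivFun_symm_apply, Submodule.coe_sum, map_sum, dotProduct]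
  refine Finset.sum_congr rfl fun i _ => ?_
  rw [Submodule.coe_smul, map_smul, smul_eq_mul, mul_comm]

lemma bb_skew (X Y : Fin n → ℝ) : bb hlie e X Y = - bb hlie e Y X := by
  apply eq_of_symm e
  rw [map_neg, Submodule.coe_neg, symm_bb, symm_bb, br_swap]

lemma bb_jac (X Y Z : Fin n → ℝ) : bb hlie e X (bb hlie e Y Z) =
    bb hlie e (bb hlie e X Y) Z + bb hlie e Y (bb hlie e X Z) := by
  apply eq_of_symm e
  rw [map_add, Submodule.coe_add]
  simp only [symm_bb, br]
  noncomm_ring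

/-- the Killing form in coordinates -/
def KK : (Fin n → ℝ) →ₗ[ℝ] (Fin n → ℝ) →ₗ[ℝ] ℝ :=
  LinearMap.mk₂ ℝ (fun X Y => LinearMap.trace ℝ _ (bb hlie e X ∘ₗ bb hlie e Y))
    (by intro X X' Y; rw [map_add, LinearMap.add_comp, map_add])
    (by intro r X Y; rw [map_smul, LinearMap.smul_comp, map_smul])
    (by intro X Y Y'; rw [map_add, LinearMap.comp_add, map_add])
    (by intro r X Y; rw [map_smul, LinearMap.comp_smul, map_smul])

lemma KK_apply (X Y : Fin n → ℝ) :
    KK hlie e X Y = LinearMap.trace ℝ _ (bb hlie e X ∘ₗ bb hlie e Y) := rfl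

lemma KK_comm (X Y : Fin n → ℝ) : KK hlie e X Y = KK hlie e Y X := by
  rw [KK_apply, KK_apply]
  exact LinearMap.trace_mul_comm ℝ (bb hlie e X) (bb hlie e Y)

lemma bb_bb (X Y : Fin n → ℝ) : bb hlie e (bb hlie e X Y) =
    bb hlie e X ∘ₗ bb hlie e Y - bb hlie e Y ∘ₗ bb hlie e X := by
  refine LinearMap.ext fun Z => ?_
  rw [LinearMap.sub_apply, LinearMap.comp_apply, LinearMap.comp_apply, bb_jac hlie e X Y Z]
  abel

lemma KK_inv (X Y Z : Fin n → ℝ) :
    KK hlie e (bb hlie e X Y) Z = KK hlie e X (bb hlie e Y Z) := by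
  rw [KK_apply, KK_apply, bb_bb, bb_bb, LinearMap.sub_comp, LinearMap.comp_sub, map_sub, map_sub]
  have h1 : LinearMap.trace ℝ _ ((bb hlie e Y ∘ₗ bb hlie e X) ∘ₗ bb hlie e Z) =
      LinearMap.trace ℝ _ (bb hlie e X ∘ₗ bb hlie e Z ∘ₗ bb hlie e Y) := by
    have := LinearMap.trace_mul_comm ℝ (bb hlie e Y) (bb hlie e X ∘ₗ bb hlie e Z)
    exact this
  rw [h1]
  rfl

/-- an abelian ideal lies in the radical of the Killing form -/
lemma KK_ideal {v : Submodule ℝ A} (hid : ∀ X ∈ 𝔤, ∀ x ∈ v, br X x ∈ v)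
    (hcomm : ∀ x ∈ v, ∀ y ∈ v, x * y = y * x) (x : Fin n → ℝ)
    (hx : ((e.equivFun.symm x : 𝔤) : A) ∈ v) (Z : Fin n → ℝ) : KK hlie e x Z = 0 := by
  have hbr : ∀ W : Fin n → ℝ, ((e.equivFun.symm (bb hlie e x W) : 𝔤) : A) ∈ v := by
    intro W
    rw [symm_bb, br_swap]
    exact v.neg_mem (hid _ (e.equivFun.symm W).2 _ hx)
  have h0 : ∀ W : Fin n → ℝ, ((e.equivFun.symm W : 𝔤) : A) ∈ v → bb hlie e x W = 0 := by
    intro W hW
    apply eq_of_symm e
    rw [symm_bb, map_zero, Submodule.coe_zero]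
    unfold br
    rw [hcomm _ hx _ hW, sub_self]
  have hnil : IsNilpotent (bb hlie e x ∘ₗ bb hlie e Z) := by
    refine ⟨2, ?_⟩
    rw [pow_two]
    refine LinearMap.ext fun W => ?_
    show bb hlie e x (bb hlie e Z (bb hlie e x (bb hlie e Z W))) = 0
    refine h0 _ ?_
    rw [symm_bb]
    exact hid _ (e.equivFun.symm Z).2 _ (hbr _)
  rw [KK_apply]
  exact (LinearMap.isNilpotent_trace_of_isNilpotent hnil).eq_zero

/-- automorphisms preserve the Killing form -/
lemma KK_auto (T : (Fin n → ℝ) →ₗ[ℝ] (Fin n → ℝ)) (hT : LinearMap.det T = 1)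
    (hb : ∀ X Y, bb hlie e (T X) (T Y) = T (bb hlie e X Y)) (X Y : Fin n → ℝ) :
    KK hlie e (T X) (T Y) = KK hlie e X Y := by
  have hu : IsUnit (LinearMap.det T) := by rw [hT]; exact isUnit_one
  let T' := LinearMap.equivOfIsUnitDet hu
  have hT' : ∀ W, T' W = T W := fun W => LinearMap.equivOfIsUnitDet_apply hu W
  have h1 : ∀ X, bb hlie e (T X) = T'.conj (bb hlie e X) := by
    intro X
    refine LinearMap.ext fun W => ?_
    rw [LinearEquiv.conj_apply_apply, hT', ← hb, ← hT' (T'.symm W), T'.apply_symm_apply]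
  rw [KK_apply, KK_apply, h1, h1, ← LinearEquiv.conj_comp]
  exact LinearMap.trace_conj' _ T'

end coord

end Pool.Agent.Run7.h314.LK
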